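import Pool.Agent.Helper99.CT.Defs

/-!
Project CT (cactus groups, MP_2b0b8a_al), packet ODD: the cactus group has no elements of odd order.
-/

set_option autoImplicit false

namespace Pool.Agent.Helper33.CT

open Pool.Agent.Helper99.CT

theorem app_inv {β : Type} (S : Equiv.Perm β) (a : β) : S (S⁻¹ a) = a := by
  rw [← Equiv.Perm.mul_apply, mul_inv_cancel, Equiv.Perm.one_apply]

/-! ### Lists of letters -/

section Abs

variable {α : Type} {C : α → α → Prop}

theorem first_append_left {v : α} {a : List α} (b : List α) (h : First C v a) :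
    First C v (a ++ b) := by
  induction a with
  | nil => exact absurd h (by simp [First])
  | cons x a ih =>
    rcases h with h | ⟨h1, h2⟩
    · exact Or.inl h
    · exact Or.inr ⟨h1, ih h2⟩

theorem first_append {v : α} {a b : List α} (h : First C v (a ++ b)) :
    First C v a ∨ ((∀ x ∈ a, C x v ∧ x ≠ v) ∧ First C v b) := by
  induction a with
  | nil => exact Or.inr ⟨by simp, h⟩
  | cons x a ih =>
    by_cases hx : x = v
    · exact Or.inl (Or.inl hx)
    · rcases h with h | ⟨h1, h2⟩
      · exact absurd h hx
      · rcases ih h2 with h3 | ⟨h3, h4⟩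
        · exact Or.inl (Or.inr ⟨h1, h3⟩)
        · refine Or.inr ⟨?_, h4⟩
          intro y hy
          rcases List.mem_cons.1 hy with rfl | hy
          · exact ⟨h1, hx⟩
          · exact h3 y hy

theorem first_of_forall {v : α} {a : List α} (b : List α) (h : ∀ x ∈ a, C x v) :
    First C v (a ++ v :: b) := by
  induction a with
  | nil => exact Or.inl rfl
  | cons x a ih =>
    exact Or.inr ⟨h x (List.mem_cons_self), ih fun y hy => h y (List.mem_cons_of_mem _ hy)⟩

theorem first_mem {v : α} {a : List α} (h : First C v a) : v ∈ a := by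
  induction a with
  | nil => exact absurd h (by simp [First])
  | cons x a ih =>
    rcases h with h | ⟨_, h2⟩
    · rw [h]
      exact List.mem_cons_self
    · exact List.mem_cons_of_mem _ (ih h2)

theorem not_red_append {a b : List α} (h : ¬ Red C (a ++ b)) :
    (∃ a1 v a2, a = a1 ++ v :: a2 ∧ First C v (a2 ++ b)) ∨ ¬ Red C b := by
  induction a with
  | nil => exact Or.inr h
  | cons x a ih =>
    by_cases h1 : First C x (a ++ b)
    · exact Or.inl ⟨[], x, a, rfl, h1⟩
    · have h2 : ¬ Red C (a ++ b) := fun h2 => h ⟨h1, h2⟩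
      rcases ih h2 with ⟨a1, v, a2, rfl, h3⟩ | h3
      · exact Or.inl ⟨x :: a1, v, a2, rfl, h3⟩
      · exact Or.inr h3

theorem first_map (f : Equiv.Perm α) (hf : ∀ a b, C (f a) (f b) ↔ C a b) (v : α) (w : List α) :
    First C (f v) (w.map f) ↔ First C v w := by
  induction w with
  | nil => exact Iff.rfl
  | cons x w ih =>
    show (f x = f v ∨ (C (f x) (f v) ∧ First C (f v) (w.map f))) ↔ (x = v ∨ (C x v ∧ First C v w))
    rw [hf, ih, f.injective.eq_iff]

theorem red_map (f : Equiv.Perm α) (hf : ∀ a b, C (f a) (f b) ↔ C a b) (w : List α) :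
    Red C (w.map f) ↔ Red C w := by
  induction w with
  | nil => exact Iff.rfl
  | cons x w ih =>
    show (¬ First C (f x) (w.map f) ∧ Red C (w.map f)) ↔ (¬ First C x w ∧ Red C w)
    rw [first_map f hf, ih]

theorem pow_comp (S : Equiv.Perm α) (hS : ∀ a b, C (S a) (S b) ↔ C a b) (i : ℕ) :
    ∀ a b, C ((S ^ i) a) ((S ^ i) b) ↔ C a b := by
  induction i with
  | zero => intro a b; exact Iff.rfl
  | succ i ih =>
    intro a b
    rw [pow_succ']
    exact (hS _ _).trans (ih a b)

/-- The word `w`, `S w`, `S² w`, ... (`j` blocks). -/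
def rep (S : Equiv.Perm α) : ℕ → List α → List α
  | 0, _ => []
  | j + 1, w => w ++ (rep S j w).map S

theorem exists_of_not_red (S : Equiv.Perm α) (hS : ∀ a b, C (S a) (S b) ↔ C a b) (j : ℕ)
    (w : List α) (h : ¬ Red C (rep S j w)) :
    ∃ i w1 v w2, w = w1 ++ v :: w2 ∧ First C v (w2 ++ (rep S i w).map S) := by
  induction j with
  | zero => exact absurd trivial h
  | succ j ih =>
    rcases not_red_append h with ⟨a1, v, a2, h1, h2⟩ | h1
    · exact ⟨j, a1, v, a2, h1, h2⟩
    · rw [red_map S hS] at h1
      exact ih h1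

theorem rep_rotate (S : Equiv.Perm α) (i : ℕ) (w1 w2 : List α) :
    w1 ++ rep S i (w2 ++ w1.map S) = rep S i (w1 ++ w2) ++ w1.map (S ^ i) := by
  induction i with
  | zero => simp [rep]
  | succ i ih =>
    have h1 : w1.map (S ^ (i + 1)) = (w1.map (S ^ i)).map S := by
      rw [pow_succ', List.map_map]
      rfl
    show w1 ++ ((w2 ++ w1.map S) ++ (rep S i (w2 ++ w1.map S)).map S) =
      ((w1 ++ w2) ++ (rep S i (w1 ++ w2)).map S) ++ w1.map (S ^ (i + 1))
    rw [h1, List.append_assoc (w1 ++ w2), ← List.map_append, ← ih, List.map_append]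
    simp only [List.append_assoc]

theorem first_block (S : Equiv.Perm α) (w : List α) (v : α) (i : ℕ) : ∀ s : ℕ,
    First C v ((rep S i w).map (S ^ s)) →
    ∃ t, s ≤ t ∧ First C v (w.map (S ^ t)) ∧
      ∀ j, s ≤ j → j < t → ∀ a ∈ w, C ((S ^ j) a) v ∧ (S ^ j) a ≠ v := by
  induction i with
  | zero => intro s h; exact absurd h (by simp [rep, First])
  | succ i ih =>
    intro s h
    have h0 : (rep S (i + 1) w).map (S ^ s) = w.map (S ^ s) ++ (rep S i w).map (S ^ (s + 1)) := by
      show (w ++ (rep S i w).map S).map (S ^ s) = _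
      rw [List.map_append, List.map_map]
      congr 1
    rw [h0] at h
    rcases first_append h with h1 | ⟨h1, h2⟩
    · exact ⟨s, le_rfl, h1, fun j h3 h4 => absurd h4 (by omega)⟩
    · obtain ⟨t, h3, h4, h5⟩ := ih (s + 1) h2
      refine ⟨t, by omega, h4, fun j h6 h7 a ha => ?_⟩
      rcases Nat.eq_or_lt_of_le h6 with rfl | h8
      · exact h1 _ (List.mem_map.2 ⟨a, ha, rfl⟩)
      · exact h5 j h8 h7 a ha

variable [DecidableEq α]

theorem count_rep (S : Equiv.Perm α) (w : List α) (j : ℕ) : ∀ v : α,
    (rep S j w).count v = ∑ i ∈ Finset.range j, w.count ((S ^ i)⁻¹ v) := by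
  induction j with
  | zero => intro v; simp [rep]
  | succ j ih =>
    intro v
    show (w ++ (rep S j w).map S).count v = _
    have h1 : ((rep S j w).map S).count v = (rep S j w).count (S⁻¹ v) := by
      have h2 := List.count_map_of_injective (rep S j w) S S.injective (S⁻¹ v)
      rw [app_inv] at h2
      exact h2
    rw [List.count_append, h1, ih, Finset.sum_range_succ', add_comm]
    have h2 : ∀ i : ℕ, w.count ((S ^ i)⁻¹ (S⁻¹ v)) = w.count ((S ^ (i + 1))⁻¹ v) := by
      intro i
      rw [pow_succ', mul_inv_rev, Equiv.Perm.mul_apply]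
    rw [Finset.sum_congr rfl fun i _ => h2 i, pow_zero, inv_one, Equiv.Perm.one_apply]

/-- The situation of case (B). -/
theorem sit (S : Equiv.Perm α) (hS : ∀ a b, C (S a) (S b) ↔ C a b) (Adm : List α → Prop)
    (F1 : ∀ w, Adm w → Red C w)
    (F4 : ∀ w u, Adm w → First C u w → Adm (w.erase u ++ [S u])) (v : α) (t : ℕ) :
    ∀ w : List α, 1 ≤ t → Adm (v :: w) → v ∉ w → (∀ a ∈ w, C a v) →
    (∀ j, 1 ≤ j → j < t → ∀ a ∈ v :: w, C ((S ^ j) a) v ∧ (S ^ j) a ≠ v) →
    ∀ u ∈ w, (S ^ t) u = v → First C u (v :: w) → False := by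
  induction t with
  | zero => intro w h; omega
  | succ t ih =>
    intro w _ hA hv hc hj u hu huv hf
    have hne : u ≠ v := fun h => hv (h ▸ hu)
    have hA' := F4 _ u hA hf
    have he : (v :: w).erase u = v :: w.erase u := by
      rw [List.erase_cons_tail]
      simpa using fun h : v = u => hne h.symm
    rw [he] at hA'
    have hA2 : Adm (v :: (w.erase u ++ [S u])) := hA'
    rcases Nat.eq_zero_or_pos t with rfl | ht
    · have h1 : S u = v := by simpa using huv
      apply (F1 _ hA2).1
      rw [h1]
      exact first_of_forall [] fun a ha => hc a (List.mem_of_mem_erase ha)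
    · have hSu : S u ≠ v := by
        have := (hj 1 le_rfl (by omega) u (List.mem_cons_of_mem _ hu)).2
        simpa using this
      have hSc : C (S u) v := by
        have := (hj 1 le_rfl (by omega) u (List.mem_cons_of_mem _ hu)).1
        simpa using this
      have hsucc : ∀ j : ℕ, (S ^ j) (S u) = (S ^ (j + 1)) u := by
        intro j
        rw [pow_succ, Equiv.Perm.mul_apply]
      refine ih (w.erase u ++ [S u]) ht hA2 ?_ ?_ ?_ (S u) ?_ ?_ ?_
      · intro h
        rcases List.mem_append.1 h with h | h
        · exact hv (List.mem_of_mem_erase h)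
        · exact hSu (List.mem_singleton.1 h).symm
      · intro a ha
        rcases List.mem_append.1 ha with ha | ha
        · exact hc a (List.mem_of_mem_erase ha)
        · rw [List.mem_singleton.1 ha]
          exact hSc
      · intro j h1 h2 a ha
        rcases List.mem_cons.1 ha with rfl | ha
        · exact hj j h1 (by omega) a List.mem_cons_self
        · rcases List.mem_append.1 ha with ha | ha
          · exact hj j h1 (by omega) a (List.mem_cons_of_mem _ (List.mem_of_mem_erase ha))
          · rw [List.mem_singleton.1 ha, hsucc]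
            exact hj (j + 1) (by omega) (by omega) u (List.mem_cons_of_mem _ hu)
      · exact List.mem_append_right _ (List.mem_singleton.2 rfl)
      · rw [hsucc]
        exact huv
      · have h1 : v :: (w.erase u ++ [S u]) = (v :: w.erase u) ++ S u :: [] := rfl
        rw [h1]
        refine first_of_forall [] fun a ha => ?_
        have ha' : a ∈ v :: w := by
          rcases List.mem_cons.1 ha with rfl | ha
          · exact List.mem_cons_self
          · exact List.mem_cons_of_mem _ (List.mem_of_mem_erase ha)
        have h2 := (hj t ht (by omega) a ha').1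
        rw [← huv, ← hsucc] at h2
        exact (pow_comp S hS t a (S u)).1 h2

/-- The combinatorial part. -/
theorem abs {k : ℕ} (hk : Odd k) (S : Equiv.Perm α) (hS : ∀ a b, C (S a) (S b) ↔ C a b)
    (hSk : S ^ k = 1) (Adm : List α → Prop) (F1 : ∀ w, Adm w → Red C w)
    (F2 : ∀ w1 w2, Adm (w1 ++ w2) → Adm (w2 ++ w1.map S))
    (F3 : ∀ w, Adm w → ¬ Red C (rep S k w) ∧ ∀ v, Even ((rep S k w).count v))
    (F4 : ∀ w u, Adm w → First C u w → Adm (w.erase u ++ [S u])) (w : List α) : ¬ Adm w := by
  intro hw
  obtain ⟨i, w1, v, w2, rfl, h1⟩ := exists_of_not_red S hS k w (F3 w hw).1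
  have hA : Adm (v :: (w2 ++ w1.map S)) := F2 w1 (v :: w2) hw
  set w' := w2 ++ w1.map S with hw'
  have h2 : First C v (w' ++ (rep S i (v :: w')).map S) := by
    have h3 := rep_rotate S i w1 (v :: w2)
    have h4 : (v :: w2) ++ w1.map S = v :: w' := rfl
    rw [h4] at h3
    have h5 : w' ++ (rep S i (v :: w')).map S =
        (w2 ++ (rep S i (w1 ++ v :: w2)).map S) ++ (w1.map (S ^ i)).map S := by
      calc w' ++ (rep S i (v :: w')).map S
          = w2 ++ (w1 ++ rep S i (v :: w')).map S := by
            rw [List.map_append, ← List.append_assoc]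
        _ = _ := by rw [h3, List.map_append, List.append_assoc]
    rw [h5]
    exact first_append_left _ h1
  rcases first_append h2 with h3 | ⟨h3, h4⟩
  · exact (F1 _ hA).1 h3
  have h4' : First C v ((rep S i (v :: w')).map ⇑(S ^ 1)) := by
    rw [pow_one]
    exact h4
  obtain ⟨t, ht1, ht2, ht3⟩ := first_block S (v :: w') v i 1 h4'
  have hvw : v ∉ w' := fun h => (h3 v h).2 rfl
  set u := (S ^ t)⁻¹ v with hu
  have huv : (S ^ t) u = v := by rw [hu, app_inv]
  have hf : First C u (v :: w') := by
    have h6 := first_map (S ^ t) (pow_comp S hS t) u (v :: w')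
    rw [huv] at h6
    exact h6.1 ht2
  by_cases h5 : u = v
  · -- case (A)
    rw [h5] at huv
    have hper : ∀ q : ℕ, ((S ^ t) ^ q) v = v := by
      intro q
      induction q with
      | zero => rfl
      | succ q ih => rw [pow_succ, Equiv.Perm.mul_apply, huv, ih]
    have hinv : ∀ q r : ℕ, (S ^ (t * q + r))⁻¹ v = (S ^ r)⁻¹ v := by
      intro q r
      rw [pow_add, pow_mul, mul_inv_rev, Equiv.Perm.mul_apply]
      congr 1
      rw [Equiv.Perm.inv_eq_iff_eq]
      exact (hper q).symm
    have hnot : ∀ r, 1 ≤ r → r < t → (S ^ r)⁻¹ v ∉ v :: w' := by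
      intro r h6 h7 h8
      exact (ht3 r h6 h7 _ h8).2 (app_inv _ _)
    have hc : ∀ q r : ℕ, r < t → (v :: w').count ((S ^ (t * q + r))⁻¹ v) =
        if r = 0 then 1 else 0 := by
      intro q r hr
      rw [hinv]
      by_cases h6 : r = 0
      · rw [if_pos h6, h6, pow_zero, inv_one, Equiv.Perm.one_apply, List.count_cons_self,
          List.count_eq_zero_of_not_mem hvw]
      · rw [if_neg h6]
        exact List.count_eq_zero_of_not_mem (hnot r (by omega) hr)
    have hsum : ∀ q : ℕ, ∑ i ∈ Finset.range (t * q), (v :: w').count ((S ^ i)⁻¹ v) = q := by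
      intro q
      induction q with
      | zero => simp
      | succ q ih =>
        rw [Nat.mul_succ, Finset.sum_range_add, ih]
        congr 1
        rw [Finset.sum_congr rfl fun r hr => hc q r (Finset.mem_range.1 hr)]
        rw [Finset.sum_ite_eq' (Finset.range t) 0 (fun _ => 1), if_pos (Finset.mem_range.2 ht1)]
    have hdiv : k % t = 0 := by
      by_contra h6
      have h7 := hinv (k / t) (k % t)
      rw [Nat.div_add_mod, hSk, inv_one, Equiv.Perm.one_apply] at h7
      refine hnot (k % t) (by omega) (Nat.mod_lt _ ht1) ?_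
      rw [← h7]
      exact List.mem_cons_self
    have hkt : k = t * (k / t) := by
      have := Nat.div_add_mod k t
      omega
    have h8 := (F3 _ hA).2 v
    rw [count_rep] at h8
    have h9 := hsum (k / t)
    rw [← hkt] at h9
    rw [h9] at h8
    have h10 : Odd (t * (k / t)) := hkt ▸ hk
    exact (Nat.not_odd_iff_even.2 h8) (Nat.odd_mul.1 h10).2
  · -- case (B)
    refine sit S hS Adm F1 F4 v t w' ht1 hA hvw (fun a ha => (h3 a ha).1) ht3 u ?_ huv hf
    rcases List.mem_cons.1 (first_mem hf) with h6 | h6
    · exact absurd h6 h5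
    · exact h6

end Abs

/-! ### Words in the cactus group -/

variable {n : ℕ}

theorem mv_mul (π ρ : Equiv.Perm (Fin n)) (S : Finset (Fin n)) : mv (π * ρ) S = mv π (mv ρ S) := by
  unfold mv
  rw [Finset.map_map]
  rfl

theorem mv_one (S : Finset (Fin n)) : mv 1 S = S := by
  unfold mv
  exact Finset.map_refl

/-- The action on sets as a homomorphism. -/
def mvP (n : ℕ) : Equiv.Perm (Fin n) →* Equiv.Perm (Finset (Fin n)) where
  toFun π :=
    { toFun := mv π
      invFun := mv π⁻¹
      left_inv := fun S => by rw [← mv_mul, inv_mul_cancel, mv_one]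
      right_inv := fun S => by rw [← mv_mul, mul_inv_cancel, mv_one] }
  map_one' := Equiv.ext mv_one
  map_mul' π ρ := Equiv.ext fun S => mv_mul π ρ S

theorem mvP_apply (π : Equiv.Perm (Fin n)) (S : Finset (Fin n)) : mvP n π S = mv π S := rfl

theorem comp_mv (π : Equiv.Perm (Fin n)) (S T : Finset (Fin n)) :
    Comp (mv π S) (mv π T) ↔ Comp S T := by
  unfold Comp mv
  rw [Finset.map_subset_map, Finset.map_subset_map, Finset.disjoint_map]

theorem map_mv (π : Equiv.Perm (Fin n)) (w : List (Finset (Fin n))) :
    w.map (mv π) = w.map (mvP n π) := rfl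

theorem red_mv (π : Equiv.Perm (Fin n)) (w : List (Finset (Fin n))) :
    Red Comp (w.map (mv π)) ↔ Red Comp w := red_map (mvP n π) (comp_mv π) w

theorem first_mv (π : Equiv.Perm (Fin n)) (v : Finset (Fin n)) (w : List (Finset (Fin n))) :
    First Comp (mv π v) (w.map (mv π)) ↔ First Comp v w := first_map (mvP n π) (comp_mv π) v w

theorem map_map_mv (π ρ : Equiv.Perm (Fin n)) (w : List (Finset (Fin n))) :
    (w.map (mv ρ)).map (mv π) = w.map (mv (π * ρ)) := by
  rw [List.map_map]
  refine List.map_congr_left fun S _ => ?_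
  exact (mv_mul π ρ S).symm

theorem rho_s' (g : Gen n) : rho n (s g) = flip g := by
  ext i
  rw [rho_s]
  rfl

theorem word_nil : word ([] : List (Gen n)) = 1 := rfl

theorem word_cons (g : Gen n) (L : List (Gen n)) : word (g :: L) = s g * word L := by
  unfold word
  rw [List.map_cons, List.prod_cons]

theorem word_append (L₁ L₂ : List (Gen n)) : word (L₁ ++ L₂) = word L₁ * word L₂ := by
  unfold word
  rw [List.map_append, List.prod_append]

theorem letters_append (L₁ L₂ : List (Gen n)) :
    letters (L₁ ++ L₂) = letters L₁ ++ (letters L₂).map (mv (rho n (word L₁))) := by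
  induction L₁ with
  | nil =>
    show letters L₂ = [] ++ (letters L₂).map (mv (rho n (word [])))
    rw [word_nil, map_one, List.nil_append]
    conv_lhs => rw [← List.map_id (letters L₂)]
    exact List.map_congr_left fun S _ => (mv_one S).symm
  | cons g L₁ ih =>
    show pts g :: (letters (L₁ ++ L₂)).map (mv (flip g)) =
      (pts g :: (letters L₁).map (mv (flip g))) ++ (letters L₂).map (mv (rho n (word (g :: L₁))))
    rw [ih, List.map_append, map_map_mv, word_cons, map_mul, rho_s']
    rfl

theorem letters_length (L : List (Gen n)) : (letters L).length = L.length := by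
  induction L with
  | nil => rfl
  | cons g L ih =>
    show (pts g :: (letters L).map (mv (flip g))).length = _
    rw [List.length_cons, List.length_map, ih, List.length_cons]

theorem exists_word (x : Cactus n) : ∃ L : List (Gen n), word L = x := by
  induction x using Pool.Agent.Helper99.CT.induction with
  | h1 => exact ⟨[], rfl⟩
  | h2 g x ih =>
    obtain ⟨L, rfl⟩ := ih
    exact ⟨g :: L, word_cons g L⟩

/-- Repetition of a word. -/
def repL (L : List (Gen n)) : ℕ → List (Gen n)
  | 0 => []
  | j + 1 => L ++ repL L j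

theorem word_repL (L : List (Gen n)) (j : ℕ) : word (repL L j) = word L ^ j := by
  induction j with
  | zero => rw [pow_zero]; rfl
  | succ j ih =>
    show word (L ++ repL L j) = _
    rw [word_append, ih, pow_succ']

theorem letters_repL (L : List (Gen n)) (π : Equiv.Perm (Fin n)) (j : ℕ) :
    (letters (repL L j)).map (mv π) =
      rep (mvP n (π * rho n (word L) * π⁻¹)) j ((letters L).map (mv π)) := by
  induction j with
  | zero => rfl
  | succ j ih =>
    show (letters (L ++ repL L j)).map (mv π) = (letters L).map (mv π) ++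
      (rep (mvP n (π * rho n (word L) * π⁻¹)) j ((letters L).map (mv π))).map
        (mvP n (π * rho n (word L) * π⁻¹))
    rw [← ih, ← map_mv, letters_append, List.map_append, map_map_mv, map_map_mv]
    congr 3
    group

/-- The cactus group has no elements of odd order. -/
theorem odd (hD : GoalDel) (hX : GoalExt) (hS : GoalShort) : GoalOdd := by
  intro n x k hk hx
  by_contra hne
  classical
  have hex : ∃ m, ∃ L : List (Gen n), L.length = m ∧ IsConj x (word L) := by
    obtain ⟨L, hL⟩ := exists_word x
    exact ⟨L.length, L, rfl, hL ▸ IsConj.refl _⟩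
  set m := Nat.find hex with hm
  obtain ⟨L₀, hL₀, hc₀⟩ := Nat.find_spec hex
  have hmin : ∀ L : List (Gen n), IsConj x (word L) → m ≤ L.length :=
    fun L hL => Nat.find_min' hex ⟨L, rfl, hL⟩
  have hpow : ∀ y : Cactus n, IsConj x y → y ^ k = 1 ∧ y ≠ 1 := by
    intro y hy
    obtain ⟨c, hc⟩ := isConj_iff.1 hy
    refine ⟨?_, ?_⟩
    · rw [← hc, conj_pow, hx, mul_one, mul_inv_cancel]
    · intro h1
      rw [h1] at hc
      apply hne
      have h2 : c * x = c := by
        rw [mul_inv_eq_one] at hc
        exact hc
      exact mul_eq_left.1 h2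
  set σ := rho n (word L₀) with hσ
  have hσk : σ ^ k = 1 := by
    rw [hσ, ← map_pow, (hpow _ hc₀).1, map_one]
  refine abs (C := Comp) hk (mvP n σ) (comp_mv σ) (by rw [← map_pow, hσk, map_one])
    (fun w => ∃ (L : List (Gen n)) (π : Equiv.Perm (Fin n)), IsConj x (word L) ∧
      L.length = m ∧ (letters L).map (mv π) = w ∧ π * rho n (word L) * π⁻¹ = σ)
    ?_ ?_ ?_ ?_ (letters L₀) ?_
  · rintro w ⟨L, π, h1, h2, rfl, h4⟩
    rw [red_mv]
    by_contra h5
    obtain ⟨L', h6, h7⟩ := hS n L h5
    have h8 := hmin L' (h7 ▸ h1)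
    omega
  · rintro w1 w2 ⟨L, π, h1, h2, h3, h4⟩
    -- split the word
    have hlen : w1.length ≤ L.length := by
      have h5 := congrArg List.length h3
      rw [List.length_map, letters_length, List.length_append] at h5
      omega
    set L₁ := L.take w1.length with hL₁
    set L₂ := L.drop w1.length with hL₂
    have hL : L = L₁ ++ L₂ := (List.take_append_drop _ _).symm
    have hlen1 : L₁.length = w1.length := by
      rw [hL₁, List.length_take]
      omega
    have h5 : (letters L₁).map (mv π) ++ (letters L₂).map (mv (π * rho n (word L₁))) =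
        w1 ++ w2 := by
      rw [← h3, hL, letters_append, List.map_append, map_map_mv]
    obtain ⟨h6, h7⟩ := List.append_inj h5 (by
      rw [List.length_map, letters_length, hlen1])
    refine ⟨L₂ ++ L₁, π * rho n (word L₁), ?_, ?_, ?_, ?_⟩
    · refine h1.trans ?_
      rw [hL, word_append, word_append]
      exact isConj_iff.2 ⟨(word L₁)⁻¹, by group⟩
    · rw [List.length_append, add_comm, ← List.length_append, ← hL, h2]
    · rw [letters_append, List.map_append, map_map_mv, h7, ← h6, ← map_mv, map_map_mv, ← h4]
      congr 3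
      rw [hL, word_append, map_mul]
      group
    · rw [← h4, hL, word_append, word_append, map_mul, map_mul]
      group
  · rintro w ⟨L, π, h1, h2, rfl, h4⟩
    rw [← h4, ← letters_repL]
    have h5 : word (repL L k) = 1 := by rw [word_repL, (hpow _ h1).1]
    obtain ⟨h6, h7⟩ := hD n (repL L k) h5
    refine ⟨?_, ?_⟩
    · rw [red_mv]
      apply h6
      intro h8
      obtain ⟨j, hj⟩ := hk
      have h9 : L = [] := by
        rw [hj] at h8
        exact (List.append_eq_nil_iff.1 h8).1
      rw [h9] at h1
      exact (hpow _ h1).2 rfl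
    · intro v
      have h8 := List.count_map_of_injective (letters (repL L k)) (mvP n π) (mvP n π).injective
        ((mvP n π)⁻¹ v)
      rw [app_inv] at h8
      rw [map_mv, h8]
      exact h7 _
  · rintro w u ⟨L, π, h1, h2, rfl, h4⟩ h5
    have hu : mv π (mv π⁻¹ u) = u := by rw [← mv_mul, mul_inv_cancel, mv_one]
    rw [← hu, first_mv] at h5
    obtain ⟨h, L₁, h6, h7, h8, h9⟩ := hX n _ L h5
    have hfl : flip h * flip h = 1 := by
      rw [← rho_s', ← map_mul, s_sq, map_one]
    have hr : rho n (word L) = flip h * rho n (word L₁) := by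
      rw [h8, map_mul, rho_s']
    have hw1 : word (L₁ ++ [h]) = word L₁ * s h := by
      rw [word_append, word_cons, word_nil, mul_one]
    refine ⟨L₁ ++ [h], π * flip h, ?_, ?_, ?_, ?_⟩
    · refine h1.trans ?_
      rw [h8, hw1]
      exact isConj_iff.2 ⟨(s h)⁻¹, by group⟩
    · rw [List.length_append, List.length_singleton, h7, h2]
    · rw [letters_append, List.map_append, map_map_mv, h9, map_map_mv]
      have e1 : π * flip h * flip h = π := by rw [mul_assoc, hfl, mul_one]
      have e2 : ((letters L).erase (mv π⁻¹ u)).map (mv π) = ((letters L).map (mv π)).erase u := by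
        have e3 := List.map_erase (mvP n π).injective (a := mv π⁻¹ u) (letters L)
        rw [mvP_apply, hu] at e3
        exact e3
      rw [e1, e2]
      congr 1
      show [mv (π * flip h * rho n (word L₁)) (pts h)] = [mv σ u]
      rw [h6, ← mv_mul, ← h4, hr]
      simp only [mul_assoc]
    · rw [← h4, hr, hw1, map_mul, rho_s']
      have e1 : (flip h)⁻¹ = flip h := inv_eq_of_mul_eq_one_left hfl
      rw [mul_inv_rev, e1]
      simp only [mul_assoc]
      rw [← mul_assoc (flip h) (flip h), hfl, one_mul]
  · refine ⟨L₀, 1, hc₀, hL₀, ?_, ?_⟩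
    · conv_rhs => rw [← List.map_id (letters L₀)]
      exact List.map_congr_left fun S _ => mv_one S
    · rw [one_mul, inv_one, mul_one]

end Pool.Agent.Helper33.CT
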