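import Pool.Agent.Helper50.CT.Goals

/-!
Project CT (MP_ccd65d_gt), packet QC: the quotient is a geodesic space with curvature `≥ -κ²`.
-/

set_option autoImplicit false

namespace Pool.Agent.Helper33.CT

open Pool.Agent.Helper50.CT

theorem ang_mono {κ a b c c' : ℝ} (hκ : 0 < κ) (ha : 0 < a) (hb : 0 < b) (hc : 0 ≤ c)
    (hcc : c ≤ c') : ang κ a b c ≤ ang κ a b c' := by
  unfold ang
  apply Real.arccos_le_arccos
  have h1 : 0 < Real.sinh (κ * a) * Real.sinh (κ * b) :=
    mul_pos (Real.sinh_pos_iff.2 (mul_pos hκ ha)) (Real.sinh_pos_iff.2 (mul_pos hκ hb))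
  have h2 : Real.cosh (κ * c) ≤ Real.cosh (κ * c') := by
    rw [Real.cosh_le_cosh, abs_of_nonneg (mul_nonneg hκ.le hc),
      abs_of_nonneg (mul_nonneg hκ.le (hc.trans hcc))]
    exact mul_le_mul_of_nonneg_left hcc hκ.le
  exact div_le_div_of_nonneg_right (by linarith) h1.le

section

variable {n : ℕ} {X T : Type} [MetricSpace X] [MetricSpace T] [AddAction (Fin n → ℤ) X]
  {π : X → T}

theorem dist_le_of (h : Cov n X T π) (x y : X) : dist (π x) (π y) ≤ dist x y := by
  have := h.le x y 0
  rwa [zero_vadd] at this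

theorem exists_lift (h : Cov n X T π) (x : X) (b : T) : ∃ y : X, π y = b ∧
    dist x y = dist (π x) b := by
  obtain ⟨y0, hy0⟩ := h.surj b
  obtain ⟨k, hk⟩ := h.lift x y0
  exact ⟨k +ᵥ y0, by rw [h.inv, hy0], by rw [hk, hy0]⟩

theorem geod_quot (hG : Geod X) (h : Cov n X T π) : Geod T := by
  intro x y
  obtain ⟨x', hx'⟩ := h.surj x
  obtain ⟨y', hy', hd⟩ := exists_lift h x' y
  rw [hx'] at hd
  obtain ⟨c, hc0, hc1, hc⟩ := hG x' y'
  rw [hd] at hc1 hc
  have hL : 0 ≤ dist x y := dist_nonneg
  have key : ∀ s ∈ Set.Icc 0 (dist x y), ∀ t ∈ Set.Icc 0 (dist x y), s ≤ t →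
      dist (π (c s)) (π (c t)) = |s - t| := by
    intro s hs t ht hst
    have e1 : |s - t| = t - s := by rw [abs_sub_comm, abs_of_nonneg (by linarith)]
    rw [e1]
    apply le_antisymm
    · have := dist_le_of h (c s) (c t)
      rw [hc s hs t ht, e1] at this
      exact this
    · have h1 : dist x (π (c s)) ≤ s := by
        have := dist_le_of h (c 0) (c s)
        rw [hc 0 ⟨le_refl _, hL⟩ s hs, hc0, hx', abs_sub_comm, sub_zero,
          abs_of_nonneg hs.1] at this
        exact this
      have h2 : dist (π (c t)) y ≤ dist x y - t := by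
        have := dist_le_of h (c t) (c (dist x y))
        rw [hc t ht _ ⟨hL, le_refl _⟩, hc1, hy', abs_sub_comm,
          abs_of_nonneg (by linarith [ht.2])] at this
        exact this
      have h3 := dist_triangle4 x (π (c s)) (π (c t)) y
      linarith
  refine ⟨fun s => π (c s), by simp only [hc0, hx'], by simp only [hc1, hy'], ?_⟩
  intro s hs t ht
  rcases le_total s t with hst | hst
  · exact key s hs t ht hst
  · have := key t ht s hs hst
    rw [dist_comm, abs_sub_comm] at this
    exact this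

theorem curv_quot {κ : ℝ} (hκ : 0 < κ) (hC : CurvGE κ X) (h : Cov n X T π) : CurvGE κ T := by
  intro p x y z hx hy hz
  obtain ⟨p', hp'⟩ := h.surj p
  obtain ⟨x', hx', dx⟩ := exists_lift h p' x
  obtain ⟨y', hy', dy⟩ := exists_lift h p' y
  obtain ⟨z', hz', dz⟩ := exists_lift h p' z
  rw [hp'] at dx dy dz
  have ne : ∀ {u : T} {u' : X}, π u' = u → u ≠ p → u' ≠ p' := by
    intro u u' hu hne he
    apply hne
    rw [← hu, he, hp']
  have px : 0 < dist p x := dist_pos.2 hx.symm
  have py : 0 < dist p y := dist_pos.2 hy.symm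
  have pz : 0 < dist p z := dist_pos.2 hz.symm
  have key := hC p' x' y' z' (ne hx' hx) (ne hy' hy) (ne hz' hz)
  rw [dx, dy, dz] at key
  have l1 : dist x y ≤ dist x' y' := by
    have := dist_le_of h x' y'; rwa [hx', hy'] at this
  have l2 : dist y z ≤ dist y' z' := by
    have := dist_le_of h y' z'; rwa [hy', hz'] at this
  have l3 : dist z x ≤ dist z' x' := by
    have := dist_le_of h z' x'; rwa [hz', hx'] at this
  have m1 := ang_mono hκ px py dist_nonneg l1
  have m2 := ang_mono hκ py pz dist_nonneg l2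
  have m3 := ang_mono hκ pz px dist_nonneg l3
  linarith

end

theorem goalQC : StmtQC := by
  intro n κ X T _ _ _ π hκ hG hC h
  exact ⟨geod_quot hG h, curv_quot hκ hC h⟩

end Pool.Agent.Helper33.CT
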